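import Pool.Agent.H.MP_1cfa24_ag.A

set_option autoImplicit false

namespace Pool.Agent.PdFun

open CategoryTheory Abelian Pool.Agent.PdOne RingTheory.Sequence

variable {S : Type} [CommRing S]

lemma pd_zero {A : Type} [AddCommGroup A] [Module S A] [Subsingleton A] : PD S A 0 :=
  (ModuleCat.isZero_of_subsingleton (ModuleCat.of S A)).hasProjectiveDimensionLT_zero

lemma pd_up' (I K : Ideal S) (g : S) (hK : ∀ c, c ∈ K ↔ c * g ∈ I) {n : ℕ} (h1 : PD S K n)
    (h2 : PD S I (n + 1)) : PD S ↥(I ⊔ Ideal.span {g}) (n + 1) :=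
  pd3 _ _ (c_exact I K g hK) (cIn_inj I K g hK) (cOut_surj I g) h1 (pd_prod.2 h2)

lemma pd_down' (I K : Ideal S) (g : S) (hK : ∀ c, c ∈ K ↔ c * g ∈ I) {n : ℕ}
    (h1 : PD S K (n + 1)) (h2 : PD S ↥(I ⊔ Ideal.span {g}) (n + 1)) : PD S I (n + 1) :=
  pd_prod.1 (pd2 _ _ (c_exact I K g hK) (cIn_inj I K g hK) (cOut_surj I g) h1 h2)

lemma ext_proj (N : ModuleCat.{0} S) (i : ℕ) (h : Subsingleton (Ext N (ModuleCat.of S S) i))
    (P : Type) [AddCommGroup P] [Module S P] [Module.Finite S P] [Module.Projective S P] :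
    Subsingleton (Ext N (ModuleCat.of S P) i) := by
  obtain ⟨n, f, g, -, -, hfg⟩ := Module.Finite.exists_comp_eq_id_of_projective S P
  have hid : 𝟙 (ModuleCat.of S P) = ∑ j : Fin n,
      (ModuleCat.ofHom ((LinearMap.proj j).comp g) : ModuleCat.of S P ⟶ ModuleCat.of S S) ≫
        ModuleCat.ofHom (f.comp (LinearMap.single S (fun _ => S) j)) := by
    refine ModuleCat.hom_ext (LinearMap.ext fun p => ?_)
    rw [ModuleCat.hom_sum, LinearMap.sum_apply]
    have h1 : f (g p) = p := LinearMap.congr_fun hfg p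
    have h2 : g p = ∑ j, Pi.single j (g p j) := (Finset.univ_sum_single _).symm
    change p = ∑ j, f (Pi.single j (g p j))
    rw [← map_sum, ← h2, h1]
  refine subsingleton_of_forall_eq 0 fun x => ?_
  rw [← Ext.comp_mk₀_id x, hid, Ext.mk₀_sum, Ext.comp_sum]
  refine Finset.sum_eq_zero fun j _ => ?_
  rw [← Ext.mk₀_comp_mk₀, ← Ext.comp_assoc_of_third_deg_zero,
    Subsingleton.elim (x.comp _ _) 0, Ext.zero_comp]

lemma ext_vanish [IsNoetherianRing S] (N : ModuleCat.{0} S) (n : ℕ)
    (h : ∀ i < n, Subsingleton (Ext N (ModuleCat.of S S) i)) :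
    ∀ (j : ℕ) (M : Type) [AddCommGroup M] [Module S M] [Module.Finite S M], PD S M (j + 1) →
      ∀ i, i + j < n → Subsingleton (Ext N (ModuleCat.of S M) i)
  | 0, M, _, _, _, hM, i, hi => by
    have := pd_one_iff.1 hM
    exact ext_proj N i (h i hi) M
  | j + 1, M, _, _, _, hM, i, hi => by
    obtain ⟨m, f, hf⟩ := Module.Finite.exists_fin' S M
    have hK : PD S (LinearMap.ker f) (j + 1) := pd1 _ _ (LinearMap.exact_subtype_ker_map f)
      (Submodule.injective_subtype _) hf pd_proj hM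
    have h1 := ext_vanish N n h j (LinearMap.ker f) hK (i + 1) (by omega)
    have h2 := ext_proj N i (h i (by omega)) (Fin m → S)
    have hS := ses _ _ (LinearMap.exact_subtype_ker_map f) (Submodule.injective_subtype _) hf
    refine subsingleton_of_forall_eq 0 fun x => ?_
    obtain ⟨x2, hx2⟩ := Ext.covariant_sequence_exact₃ N hS x rfl (@Subsingleton.elim _ h1 _ _)
    rw [← hx2, @Subsingleton.elim _ h2 x2 0, Ext.zero_comp]

/-- A socle-type element forces large projective dimension. -/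
lemma not_pd [IsNoetherianRing S] (rs : List S) (hr : IsRegular S rs) (I : Ideal S) (u : S)
    (hu : u ∉ I) (hk : ∀ r ∈ rs, r * u ∈ I) {n : ℕ} (hn : n + 1 ≤ rs.length) : ¬ PD S I n := by
  intro hI
  have hQ : PD S (S ⧸ I) (n + 1) := pd3 I.subtype I.mkQ (LinearMap.exact_subtype_mkQ I)
    (Submodule.injective_subtype _) (Submodule.mkQ_surjective _) hI pd_proj
  set P := Ideal.ofList rs
  have hP : P • (⊤ : Submodule S S) < ⊤ := lt_top_iff_ne_top.2 hr.2.symm
  have h0 := ModuleCat.subsingleton_ext_of_exists_isRegular P (ModuleCat.of S (S ⧸ P))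
    (by rw [Module.support_eq_zeroLocus, Ideal.annihilator_quotient]) (ModuleCat.of S S) hP rs
    (fun r h => Ideal.subset_span h) hr
  have h1 := ext_vanish _ _ h0 n (S ⧸ I) hQ 0 (by omega)
  have h2 : Subsingleton (ModuleCat.of S (S ⧸ P) ⟶ ModuleCat.of S (S ⧸ I)) :=
    Ext.homEquiv₀.subsingleton_congr.1 h1
  have hle : P ≤ LinearMap.ker (I.mkQ.comp (LinearMap.toSpanSingleton S S u)) := by
    refine Ideal.span_le.2 fun r h => ?_
    simpa [Ideal.Quotient.eq_zero_iff_mem] using
      (Submodule.Quotient.mk_eq_zero I).2 (hk r h)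
  have h3 := Subsingleton.elim (ModuleCat.ofHom (P.liftQ _ hle)) 0
  have h4 := congrArg (fun φ => φ.hom (P.mkQ 1)) h3
  apply hu
  have h5 : I.mkQ ((1 : S) • u) = 0 := h4
  rw [one_smul] at h5
  exact (Submodule.Quotient.mk_eq_zero I).1 h5

open MvPolynomial

variable {σ : Type} {k : Type} [Field k]

lemma supp_mul {f g : MvPolynomial σ k} {m : σ →₀ ℕ} (h : m ∈ (f * g).support) :
    ∃ a ∈ f.support, ∃ b ∈ g.support, a + b = m := by
  classical
  exact Finset.mem_add.1 (support_mul f g h)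

lemma supp_mul_mono {f : MvPolynomial σ k} {e m : σ →₀ ℕ} :
    m + e ∈ (f * monomial e (1 : k)).support ↔ m ∈ f.support := by
  rw [mem_support_iff, mem_support_iff, coeff_mul_monomial, mul_one]

lemma colon_X (G : Set σ) (j : σ) (hj : j ∉ G) (c : MvPolynomial σ k) :
    c ∈ Ideal.span (X '' G : Set (MvPolynomial σ k)) ↔
      c * X j ∈ Ideal.span (X '' G : Set (MvPolynomial σ k)) := by
  refine ⟨fun h => Ideal.mul_mem_right _ _ h, fun h => ?_⟩
  rw [mem_ideal_span_X_image] at h ⊢
  intro m hm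
  obtain ⟨i, hi, h1⟩ := h _ (supp_mul_mono.2 hm)
  refine ⟨i, hi, ?_⟩
  have : j ≠ i := fun e => hj (e ▸ hi)
  simpa [Finsupp.single_apply, this] using h1

lemma pd_vars [DecidableEq σ] (G : Finset σ) :
    PD (MvPolynomial σ k) (Ideal.span (X '' (G : Set σ) : Set (MvPolynomial σ k))) G.card := by
  induction G using Finset.induction_on with
  | empty =>
    have : Ideal.span (X '' ((∅ : Finset σ) : Set σ) : Set (MvPolynomial σ k)) = ⊥ := by simp
    rw [this]
    exact pd_zero
  | insert j G hj ih =>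
    rw [Finset.card_insert_of_notMem hj, Finset.coe_insert, Set.image_insert_eq,
      Ideal.span_insert, sup_comm]
    exact pd_up' _ _ _ (colon_X _ j (by simpa using hj)) ih (ih.mono (by omega))

lemma reg_vars (l : List σ) (hl : l.Nodup) :
    IsRegular (MvPolynomial σ k) (l.map X : List (MvPolynomial σ k)) := by
  have key : ∀ l : List σ, Ideal.ofList (l.map X : List (MvPolynomial σ k)) =
      Ideal.span (X '' {i | i ∈ l}) := by
    intro l
    rw [Ideal.ofList]
    congr 1
    ext r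
    simp
  refine ⟨⟨fun i hi => ?_⟩, ?_⟩
  · rw [isSMulRegular_quotient_iff_mem_of_smul_mem, ← List.map_take, key, smul_eq_mul,
      Ideal.mul_top]
    intro r hr
    have hi' : i < l.length := by simpa using hi
    refine (colon_X _ (l[i]) ?_ r).2 (by simpa [mul_comm] using hr)
    intro h
    have h' : l[i] ∈ l.take i := h
    obtain ⟨j, hj, he⟩ := List.mem_take_iff_getElem.1 h'
    have := (List.Nodup.getElem_inj_iff hl).1 he
    omega
  · rw [key, smul_eq_mul, Ideal.mul_top]
    intro h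
    have h1 : (1 : MvPolynomial σ k) ∈ Ideal.span (X '' {i | i ∈ l}) := h ▸ Submodule.mem_top
    rw [mem_ideal_span_X_image] at h1
    obtain ⟨i, -, h2⟩ := h1 0 (by simp)
    simp at h2

lemma not_pd_vars [Finite σ] (G : Finset σ) (I : Ideal (MvPolynomial σ k)) (u : MvPolynomial σ k)
    (hu : u ∉ I) (hk : ∀ i ∈ G, X i * u ∈ I) {n : ℕ} (hn : n + 1 ≤ G.card) :
    ¬ PD (MvPolynomial σ k) I n := by
  refine not_pd _ (reg_vars G.toList G.nodup_toList) I u hu ?_ (by simpa using hn)
  intro r hr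
  obtain ⟨i, hi, rfl⟩ := List.mem_map.1 hr
  exact hk i (by simpa using hi)

end Pool.Agent.PdFun
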