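import Pool.Agent.H.MP_0c67ff_ag.A

set_option autoImplicit false

namespace Pool.Agent.PdFun

open Pool.Agent.PdOne MvPolynomial

variable {σ : Type} (k : Type) [Field k]

/-- The monomial ideal spanned by a set of exponents. -/
noncomputable def MI (E : Set (σ →₀ ℕ)) : Ideal (MvPolynomial σ k) :=
  Ideal.span ((fun e => monomial e (1 : k)) '' E)

variable {k}

lemma mem_MI {E : Set (σ →₀ ℕ)} (hE : ∀ m ∈ E, ∀ m', m + m' ∈ E) {f : MvPolynomial σ k} :
    f ∈ MI k E ↔ ∀ m ∈ f.support, m ∈ E := by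
  rw [MI, mem_ideal_span_monomial_image]
  refine forall₂_congr fun m _ => ⟨?_, fun h => ⟨m, h, le_rfl⟩⟩
  rintro ⟨s, hs, hle⟩
  obtain ⟨c, rfl⟩ := le_iff_exists_add.1 hle
  exact hE _ hs _

lemma mono_mem_MI {E : Set (σ →₀ ℕ)} {m : σ →₀ ℕ} (h : m ∈ E) : monomial m (1 : k) ∈ MI k E :=
  Ideal.subset_span ⟨m, h, rfl⟩

lemma MI_mul {E E' E'' : Set (σ →₀ ℕ)} (h : ∀ m, m ∈ E'' ↔ ∃ a ∈ E, ∃ b ∈ E', a + b = m) :
    MI k E * MI k E' = MI k E'' := by
  rw [MI, MI, MI, Ideal.span_mul_span']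
  congr 1
  ext f
  constructor
  · rintro ⟨_, ⟨a, ha, rfl⟩, _, ⟨b, hb, rfl⟩, rfl⟩
    exact ⟨a + b, (h _).2 ⟨a, ha, b, hb, rfl⟩, by simp [monomial_mul]⟩
  · rintro ⟨m, hm, rfl⟩
    obtain ⟨a, ha, b, hb, rfl⟩ := (h m).1 hm
    exact ⟨_, ⟨a, ha, rfl⟩, _, ⟨b, hb, rfl⟩, by simp [monomial_mul]⟩

variable (x y : σ)

/-- The exponent of `x ^ a * y ^ b`. -/
noncomputable def ex (a b : ℕ) : σ →₀ ℕ := Finsupp.single x a + Finsupp.single y b

/-- Exponent sets of the model ideals. -/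
def EE (D : ℕ) (U : ℕ → Prop) (F : ℕ → Finset σ) : Set (σ →₀ ℕ) :=
  {m | D + 1 ≤ m x + m y ∨ (m x + m y = D ∧ (U (m y) ∨ ∃ i ∈ F (m y), m i ≠ 0))}

variable {x y}

lemma ex_x (hxy : x ≠ y) (a b : ℕ) : ex x y a b x = a := by simp [ex, hxy]
lemma ex_y (hxy : x ≠ y) (a b : ℕ) : ex x y a b y = b := by simp [ex, hxy.symm]
lemma ex_z {i : σ} (hx : i ≠ x) (hy : i ≠ y) (a b : ℕ) : ex x y a b i = 0 := by simp [ex, hx, hy]

lemma ex_le (hxy : x ≠ y) {a b : ℕ} {m : σ →₀ ℕ} (h1 : a ≤ m x) (h2 : b ≤ m y) :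
    ex x y a b ≤ m := by
  intro i
  by_cases hx : i = x
  · subst hx; rwa [ex_x hxy]
  by_cases hy : i = y
  · subst hy; rwa [ex_y hxy]
  rw [ex_z hx hy]; exact Nat.zero_le _

lemma mono_ex (a b : ℕ) : (X x ^ a * X y ^ b : MvPolynomial σ k) = monomial (ex x y a b) 1 := by
  simp [X_pow_eq_monomial, monomial_mul, ex]

lemma EE_up {D : ℕ} {U : ℕ → Prop} {F : ℕ → Finset σ} :
    ∀ m ∈ EE x y D U F, ∀ m', m + m' ∈ EE x y D U F := by
  intro m hm m'
  simp only [EE, Set.mem_ofPred_eq, Finsupp.add_apply] at hm ⊢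
  by_cases h : m' x + m' y = 0
  · have h1 : m' x = 0 := by omega
    have h2 : m' y = 0 := by omega
    rw [h1, h2]
    rcases hm with hm | ⟨h3, hm | ⟨i, hi, h4⟩⟩
    · exact Or.inl hm
    · exact Or.inr ⟨h3, Or.inl hm⟩
    · exact Or.inr ⟨h3, Or.inr ⟨i, hi, by omega⟩⟩
  · left
    rcases hm with hm | ⟨h3, -⟩ <;> omega

lemma pd_TT' (hxy : x ≠ y) (n : ℕ) :
    PD (MvPolynomial σ k) (TT (X x : MvPolynomial σ k) (X y) n) 2 := by
  refine pd_TT (fun r h => (mul_eq_zero.1 h).resolve_left (X_ne_zero _)) (fun n r s h => ?_) n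
  have hp : Prime (X x : MvPolynomial σ k) := X_prime
  refine (hp.dvd_or_dvd ⟨s, h⟩).resolve_left fun hd => ?_
  have := hp.dvd_of_dvd_pow hd
  rw [X_dvd_X] at this
  exact hxy this

lemma MI_base (hxy : x ≠ y) {D : ℕ} {U : ℕ → Prop} {F : ℕ → Finset σ} (hU : ∀ b ≤ D, U b) :
    MI k (EE x y D U F) = TT (X x) (X y) D := by
  apply le_antisymm
  · refine Ideal.span_le.2 ?_
    rintro _ ⟨m, hm, rfl⟩
    have h1 : D ≤ m x + m y := by rcases hm with h | ⟨h, -⟩ <;> omega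
    obtain ⟨c, hc⟩ := le_iff_exists_add.1 (ex_le hxy (m := m) le_rfl le_rfl)
    have : (monomial m (1 : k)) = monomial c 1 * (X x ^ m x * X y ^ m y) := by
      rw [mono_ex, monomial_mul, add_comm, ← hc, mul_one]
    change monomial m (1 : k) ∈ _
    rw [this]
    exact Ideal.mul_mem_left _ _ (mono_mem_TT _ _ _ _ _ h1)
  · intro r hr
    have := TT_le (X x) (X y) (MI k (EE x y D U F)) D 1 (fun a b h => by
      rw [one_mul, mono_ex]
      refine mono_mem_MI (Or.inr ⟨?_, Or.inl (hU _ ?_)⟩) <;> simp only [ex_x hxy, ex_y hxy] <;>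
        omega) r hr
    simpa using this

lemma colon_EE [DecidableEq σ] (hxy : x ≠ y) {D : ℕ} {U : ℕ → Prop} {F : ℕ → Finset σ} {b : ℕ}
    (hb : b ≤ D) (hU : ¬ U b) (hx : x ∉ F b) (hy : y ∉ F b) (c : MvPolynomial σ k) :
    c ∈ Ideal.span (X '' ((insert x (insert y (F b)) : Finset σ) : Set σ) :
      Set (MvPolynomial σ k)) ↔ c * monomial (ex x y (D - b) b) 1 ∈ MI k (EE x y D U F) := by
  have key : ∀ m : σ →₀ ℕ, (∃ i ∈ ((insert x (insert y (F b)) : Finset σ) : Set σ), m i ≠ 0) ↔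
      m + ex x y (D - b) b ∈ EE x y D U F := by
    intro m
    simp only [EE, Set.mem_ofPred_eq, Finsupp.add_apply, ex_x hxy, ex_y hxy, Finset.coe_insert,
      Set.mem_insert_iff, Finset.mem_coe, exists_eq_or_imp]
    by_cases h : m x + m y = 0
    · have h1 : m x = 0 := by omega
      have h2 : m y = 0 := by omega
      rw [h1, h2, zero_add, zero_add]
      constructor
      · rintro (h | h | ⟨i, hi, h⟩)
        · omega
        · omega
        · exact Or.inr ⟨by omega, Or.inr ⟨i, hi, by omega⟩⟩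
      · rintro (h | ⟨-, h | ⟨i, hi, h⟩⟩)
        · omega
        · exact absurd h hU
        · refine Or.inr (Or.inr ⟨i, hi, ?_⟩)
          rwa [ex_z (fun e : i = x => hx (e ▸ hi)) (fun e : i = y => hy (e ▸ hi)), add_zero] at h
    · constructor
      · intro _; left; omega
      · intro _; omega
  rw [mem_ideal_span_X_image, mem_MI EE_up]
  constructor
  · intro h m hm
    obtain ⟨a, ha, e, he, rfl⟩ := supp_mul hm
    obtain rfl := Finset.mem_singleton.1 (support_monomial_subset he)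
    exact (key a).1 (h a ha)
  · intro h m hm
    exact (key m).2 (h _ (supp_mul_mono.2 hm))

lemma card_G [DecidableEq σ] (hxy : x ≠ y) {G : Finset σ} (hx : x ∉ G) (hy : y ∉ G) :
    (insert x (insert y G)).card = G.card + 2 := by
  rw [Finset.card_insert_of_notMem (by simp [hxy, hx]), Finset.card_insert_of_notMem hy]

lemma sup_EE (hxy : x ≠ y) {D : ℕ} {U U' : ℕ → Prop} {F : ℕ → Finset σ} {b : ℕ}
    (hb : b ≤ D) (hU : ∀ a, U' a ↔ U a ∨ a = b) :
    MI k (EE x y D U F) ⊔ Ideal.span {monomial (ex x y (D - b) b) 1} = MI k (EE x y D U' F) := by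
  apply le_antisymm
  · refine sup_le (Ideal.span_mono (Set.image_mono ?_)) ?_
    · rintro m (h | ⟨h1, h | h⟩)
      · exact Or.inl h
      · exact Or.inr ⟨h1, Or.inl ((hU _).2 (Or.inl h))⟩
      · exact Or.inr ⟨h1, Or.inr h⟩
    · rw [Ideal.span_le, Set.singleton_subset_iff]
      refine mono_mem_MI (Or.inr ⟨?_, Or.inl ((hU _).2 (Or.inr ?_))⟩) <;>
        simp only [ex_x hxy, ex_y hxy]
      omega
  · refine Ideal.span_le.2 ?_
    rintro _ ⟨m, hm, rfl⟩
    rcases hm with h | ⟨h1, h | h⟩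
    · exact Ideal.mem_sup_left (mono_mem_MI (Or.inl h))
    · rcases (hU _).1 h with h | h
      · exact Ideal.mem_sup_left (mono_mem_MI (Or.inr ⟨h1, Or.inl h⟩))
      · obtain ⟨c, hc⟩ := le_iff_exists_add.1
          (ex_le hxy (m := m) (a := D - b) (b := b) (by omega) (by omega))
        refine Ideal.mem_sup_right (Ideal.mem_span_singleton'.2 ⟨monomial c 1, ?_⟩)
        rw [monomial_mul, add_comm, ← hc, mul_one]
    · exact Ideal.mem_sup_left (mono_mem_MI (Or.inr ⟨h1, Or.inr h⟩))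

lemma pd_EE_aux [DecidableEq σ] (hxy : x ≠ y) {D φ : ℕ} {F : ℕ → Finset σ}
    (hx : ∀ b, x ∉ F b) (hy : ∀ b, y ∉ F b) (H : Finset ℕ) :
    (∀ b ∈ H, b ≤ D ∧ (F b).card ≤ φ) →
      PD (MvPolynomial σ k) (MI k (EE x y D (· ∉ H) F)) (φ + 2) := by
  induction H using Finset.induction_on with
  | empty =>
    intro _
    rw [MI_base hxy (by simp)]
    exact (pd_TT' hxy D).mono (by omega)
  | insert b H hb ih =>
    intro h
    obtain ⟨h1, h2⟩ := h b (by simp)
    refine pd_down' _ _ _ (colon_EE hxy h1 (by simp) (hx b) (hy b)) ?_ ?_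
    · refine (pd_vars _).mono ?_
      rw [card_G hxy (hx b) (hy b)]; omega
    · rw [sup_EE hxy h1 (U' := (· ∉ H))]
      · exact ih fun a ha => h a (by simp [ha])
      · intro a
        by_cases e : a = b
        · simp [e, hb]
        · simp [e]

lemma pd_EE [DecidableEq σ] (hxy : x ≠ y) {D φ : ℕ} {U : ℕ → Prop} {F : ℕ → Finset σ}
    (hx : ∀ b, x ∉ F b) (hy : ∀ b, y ∉ F b) (h : ∀ b ≤ D, ¬ U b → (F b).card ≤ φ) :
    PD (MvPolynomial σ k) (MI k (EE x y D U F)) (φ + 2) := by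
  classical
  have := pd_EE_aux (k := k) hxy hx hy ((Finset.range (D + 1)).filter (¬ U ·)) (D := D) (φ := φ)
    (fun b hb => by
      simp only [Finset.mem_filter, Finset.mem_range] at hb
      exact ⟨by omega, h b (by omega) hb.2⟩)
  have e : EE x y D (· ∉ (Finset.range (D + 1)).filter (¬ U ·)) F = EE x y D U F := by
    ext m
    simp only [EE, Set.mem_ofPred_eq, Finset.mem_filter, Finset.mem_range]
    refine or_congr_right (and_congr_right fun h => or_congr_left ?_)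
    have : m y < D + 1 := by omega
    simp [this]
  rwa [e] at this

lemma not_pd_EE [DecidableEq σ] [Finite σ] (hxy : x ≠ y) {D φ b : ℕ} {U : ℕ → Prop}
    {F : ℕ → Finset σ} (hx : x ∉ F b) (hy : y ∉ F b) (hb : b ≤ D) (hU : ¬ U b)
    (h : φ ≤ (F b).card) : ¬ PD (MvPolynomial σ k) (MI k (EE x y D U F)) (φ + 1) := by
  refine not_pd_vars (insert x (insert y (F b))) _ (monomial (ex x y (D - b) b) 1) ?_ ?_ ?_
  · intro hu
    have := (colon_EE hxy hb hU hx hy 1).2 (by rwa [one_mul])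
    rw [mem_ideal_span_X_image] at this
    obtain ⟨i, -, h2⟩ := this 0 (by simp)
    simp at h2
  · intro i hi
    exact (colon_EE hxy hb hU hx hy _).1 (Ideal.subset_span ⟨i, hi, rfl⟩)
  · rw [card_G hxy hx hy]; omega

end Pool.Agent.PdFun
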