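import Pool.Agent.H.MP_0c67ff_ag.B

set_option autoImplicit false

namespace Pool.Agent.PdFun

open Pool.Agent.PdOne MvPolynomial

/-- `b` is a sum of `t` elements of `A`. -/
def SumS (A : ℕ → Prop) : ℕ → ℕ → Prop
  | 0, b => b = 0
  | t + 1, b => ∃ a, A a ∧ ∃ a', SumS A t a' ∧ b = a + a'

lemma SumS.add {A : ℕ → Prop} : ∀ {s t a b : ℕ}, SumS A s a → SumS A t b → SumS A (t + s) (a + b)
  | 0, _, _, _, h1, h2 => by
    obtain rfl : _ = 0 := h1
    simpa using h2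
  | _ + 1, _, _, _, ⟨a, ha, a', h1, e⟩, h2 => ⟨a, ha, _, h1.add h2, by omega⟩

lemma SumS.le {A : ℕ → Prop} {d : ℕ} (hA : ∀ a, A a → a ≤ d) :
    ∀ {t b : ℕ}, SumS A t b → b ≤ d * t
  | 0, _, h => by
    obtain rfl : _ = 0 := h
    simp
  | t + 1, _, ⟨a, ha, a', h1, e⟩ => by
    have := h1.le hA
    have := hA a ha
    rw [Nat.mul_succ]; omega

lemma SumS.one {A : ℕ → Prop} {a : ℕ} : SumS A 1 a ↔ A a :=
  ⟨fun ⟨_, ha, _, h, e⟩ => by
    obtain rfl : _ = 0 := h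
    rw [e]; exact ha, fun h => ⟨a, h, 0, rfl, rfl⟩⟩

lemma SumS.mul {A : ℕ → Prop} {a : ℕ} (h : A a) : ∀ t, SumS A t (t * a)
  | 0 => by simp [SumS]
  | t + 1 => ⟨a, h, _, SumS.mul h t, by ring⟩

lemma SumS.mono {A : ℕ → Prop} (h0 : A 0) {s t a : ℕ} (h : SumS A s a) (hst : s ≤ t) :
    SumS A t a := by
  have := h.add (SumS.mul h0 (t - s))
  rwa [mul_zero, add_zero, Nat.sub_add_cancel hst] at this

variable {σ J : Type} [Fintype J] (x y : σ) (z : J ↪ σ) (A : ℕ → Prop) (d : ℕ) (c : J → ℕ)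

open Classical in
/-- Indices reaching position `b` with `t` further summands. -/
noncomputable def FJ (t b : ℕ) : Finset J :=
  Finset.univ.filter fun j => ∃ a, SumS A t a ∧ b = c j + a

lemma mem_FJ {t b : ℕ} {j : J} : j ∈ FJ A c t b ↔ ∃ a, SumS A t a ∧ b = c j + a := by
  simp [FJ]

/-- Exponents of the power `t + 1`. -/
def EP (t : ℕ) : Set (σ →₀ ℕ) :=
  EE x y (d * (t + 1)) (SumS A (t + 1)) (fun b => (FJ A c t b).map z)

variable {x y z A d c}

lemma mem_EP {t : ℕ} {m : σ →₀ ℕ} : m ∈ EP x y z A d c t ↔ d * t + d + 1 ≤ m x + m y ∨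
    (m x + m y = d * t + d ∧ (SumS A (t + 1) (m y) ∨
      ∃ j, m (z j) ≠ 0 ∧ ∃ a, SumS A t a ∧ m y = c j + a)) := by
  simp only [EP, EE, Set.mem_ofPred_eq, Finset.mem_map, mem_FJ, Nat.mul_succ]
  refine or_congr_right (and_congr_right fun _ => or_congr_right ?_)
  constructor
  · rintro ⟨_, ⟨j, hj, rfl⟩, h⟩
    exact ⟨j, h, hj⟩
  · rintro ⟨j, h, hj⟩
    exact ⟨_, ⟨j, hj, rfl⟩, h⟩

lemma EP_succ (hxy : x ≠ y) (hx : ∀ j, z j ≠ x) (hy : ∀ j, z j ≠ y) (h0 : A 0) (hd : A d)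
    (hA : ∀ a, A a → a ≤ d) (hc : ∀ j, c j ≤ d) (habs : ∀ j j', SumS A 2 (c j + c j')) (t : ℕ)
    (m : σ →₀ ℕ) : m ∈ EP x y z A d c (t + 1) ↔
      ∃ a ∈ EP x y z A d c t, ∃ b ∈ EP x y z A d c 0, a + b = m := by
  constructor
  · intro hm
    have key : ∀ a', A a' → a' ≤ m y → d - a' ≤ m x →
        (∀ p : σ →₀ ℕ, p x + (d - a') = m x → p y + a' = m y → (∀ j, p (z j) = m (z j)) →
          p ∈ EP x y z A d c t) →
        ∃ a ∈ EP x y z A d c t, ∃ b ∈ EP x y z A d c 0, a + b = m := by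
      intro a' ha h1 h2 h3
      obtain ⟨p, hp⟩ := le_iff_exists_add.1 (ex_le hxy h2 h1)
      have := hA _ ha
      refine ⟨p, h3 p ?_ ?_ ?_, ex x y (d - a') a', ?_, by rw [hp, add_comm]⟩
      · rw [hp, Finsupp.add_apply, ex_x hxy]; omega
      · rw [hp, Finsupp.add_apply, ex_y hxy]; omega
      · intro j
        rw [hp, Finsupp.add_apply, ex_z (hx j) (hy j), zero_add]
      · rw [mem_EP, ex_x hxy, ex_y hxy]
        exact Or.inr ⟨by omega, Or.inl (SumS.one.2 ha)⟩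
    rw [mem_EP, Nat.mul_succ] at hm
    rcases hm with h | ⟨h, ⟨a', ha, r, hr, e⟩ | ⟨j, hj, _, ⟨a', ha, r, hr, rfl⟩, e⟩⟩
    · by_cases h1 : d ≤ m x
      · exact key 0 h0 (by omega) (by omega) fun p h2 h3 _ => mem_EP.2 (Or.inl (by omega))
      · exact key d hd (by omega) (by omega) fun p h2 h3 _ => mem_EP.2 (Or.inl (by omega))
    · have h1 := hr.le hA
      have h2 := hA _ ha
      rw [Nat.mul_succ] at h1
      refine key a' ha (by omega) (by omega) fun p h3 h4 _ => mem_EP.2 (Or.inr ⟨by omega, ?_⟩)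
      left
      rwa [show p y = r by omega]
    · have h1 := hr.le hA
      have h2 := hA _ ha
      have h5 := hc j
      refine key a' ha (by omega) (by omega) fun p h3 h4 h6 => mem_EP.2 (Or.inr ⟨by omega, ?_⟩)
      exact Or.inr ⟨j, by rwa [h6], r, hr, by omega⟩
  · rintro ⟨p, hp, q, hq, rfl⟩
    rw [mem_EP] at hp hq ⊢
    simp only [Finsupp.add_apply, Nat.mul_succ, mul_zero, zero_add] at hq ⊢
    rcases hp with hp | ⟨hp, hp'⟩
    · left
      rcases hq with hq | ⟨hq, -⟩ <;> omega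
    rcases hq with hq | ⟨hq, hq'⟩
    · left; omega
    refine Or.inr ⟨by omega, ?_⟩
    rcases hp' with h1 | ⟨j, hj, a, h1, e1⟩ <;> rcases hq' with h2 | ⟨j', hj', a', h2, e2⟩
    · left
      rw [add_comm (p y)]
      exact h2.add h1
    · obtain rfl : a' = 0 := h2
      exact Or.inr ⟨j', by omega, _, h1, by omega⟩
    · exact Or.inr ⟨j, by omega, _, h2.add h1, by omega⟩
    · obtain rfl : a' = 0 := h2
      left
      rw [show p y + q y = (c j + c j') + a by omega]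
      exact (habs j j').add h1

lemma MI_pow {k : Type} [Field k] (hxy : x ≠ y) (hx : ∀ j, z j ≠ x) (hy : ∀ j, z j ≠ y)
    (h0 : A 0) (hd : A d) (hA : ∀ a, A a → a ≤ d) (hc : ∀ j, c j ≤ d)
    (habs : ∀ j j', SumS A 2 (c j + c j')) :
    ∀ t, MI k (EP x y z A d c 0) ^ (t + 1) = MI k (EP x y z A d c t)
  | 0 => by simp
  | t + 1 => by
    rw [pow_succ, MI_pow hxy hx hy h0 hd hA hc habs t]
    exact MI_mul (EP_succ hxy hx hy h0 hd hA hc habs t)

lemma pd_pow {k : Type} [Field k] [Finite σ] (hxy : x ≠ y) (hx : ∀ j, z j ≠ x)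
    (hy : ∀ j, z j ≠ y) (h0 : A 0) (hd : A d) (hA : ∀ a, A a → a ≤ d) (hc : ∀ j, c j ≤ d)
    (habs : ∀ j j', SumS A 2 (c j + c j')) (t φ : ℕ)
    (hup : ∀ b ≤ d * (t + 1), ¬ SumS A (t + 1) b → (FJ A c t b).card ≤ φ)
    (hlow : ∃ b ≤ d * (t + 1), ¬ SumS A (t + 1) b ∧ φ ≤ (FJ A c t b).card) (m : ℕ) :
    PD (MvPolynomial σ k) ↥(MI k (EP x y z A d c 0) ^ (t + 1)) (m + 1) ↔ φ + 1 ≤ m := by
  classical
  have hx' : ∀ b, x ∉ (FJ A c t b).map z := fun b h => by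
    obtain ⟨j, -, e⟩ := Finset.mem_map.1 h
    exact hx j e
  have hy' : ∀ b, y ∉ (FJ A c t b).map z := fun b h => by
    obtain ⟨j, -, e⟩ := Finset.mem_map.1 h
    exact hy j e
  rw [MI_pow hxy hx hy h0 hd hA hc habs t, EP]
  constructor
  · intro h
    by_contra hlt
    obtain ⟨b, hb, h1, h2⟩ := hlow
    exact not_pd_EE (F := fun b => (FJ A c t b).map z) hxy (hx' b) (hy' b) hb h1 (φ := φ)
      (by simpa using h2) (h.mono (by omega))
  · intro h
    exact (pd_EE hxy hx' hy' (φ := φ) (by simpa using hup)).mono (by omega)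

end Pool.Agent.PdFun
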