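import Pool.Agent.H.MP_0c67ff_ag.C

set_option autoImplicit false

namespace Pool.Agent.PdFun

variable (T K : ℕ)

/-- The small positions. -/
def Sm (a : ℕ) : Prop := a = 0 ∨ ∃ l ≤ K, a = (2 * T) ^ (l + 1)
/-- The largest small position. -/
def VV : ℕ := (2 * T) ^ (K + 1)
/-- Half of the gap between windows. -/
def WW : ℕ := T * VV T K
/-- Total spread of the windows. -/
def RR : ℕ := T * (2 * WW T K)
/-- Upper ends of the windows. -/
def be (s : ℕ) : ℕ := 2 * RR T K + 1 + (T - s) * (2 * WW T K)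
/-- The degree of the generators. -/
def dd : ℕ := 6 * RR T K + 3
/-- The large positions. -/
def Lg (b : ℕ) : Prop := 2 * RR T K + 1 < b ∧ b ≤ dd T K ∧
  ∀ s, 1 ≤ s → s < T → ¬ (be T K s < b + s * VV T K ∧ b ≤ be T K s)
/-- All positions. -/
def AA (b : ℕ) : Prop := Sm T K b ∨ Lg T K b
/-- Positions carrying a variable. -/
def cc (s i : ℕ) : ℕ := be T K s - (s - 1) * (2 * T) ^ (i + 1)

variable {T K}

lemma be_T : be T K T = 2 * RR T K + 1 := by simp [be]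
lemma be_ge (s : ℕ) : 2 * RR T K + 1 ≤ be T K s := Nat.le_add_right _ _
lemma be_le (s : ℕ) : be T K s ≤ 3 * RR T K + 1 := by
  have : (T - s) * (2 * WW T K) ≤ RR T K := Nat.mul_le_mul_right _ (Nat.sub_le _ _)
  rw [be]; omega
lemma be_gap {s s' : ℕ} (h : s < s') (h' : s' ≤ T) : be T K s' + 2 * WW T K ≤ be T K s := by
  have : (T - s' + 1) * (2 * WW T K) ≤ (T - s) * (2 * WW T K) := Nat.mul_le_mul_right _ (by omega)
  rw [Nat.succ_mul] at this
  rw [be, be]; omega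
lemma mul_V {s : ℕ} (h : s ≤ T) : s * VV T K ≤ WW T K := Nat.mul_le_mul_right _ h
lemma V_pos (hT : 1 ≤ T) : 0 < VV T K := pow_pos (by omega) _
lemma V_le (hT : 1 ≤ T) : VV T K ≤ WW T K := by simpa using mul_V (K := K) hT
lemma W_le (hT : 1 ≤ T) : 2 * WW T K ≤ RR T K := Nat.le_mul_of_pos_left _ hT
lemma pow_le_V (hT : 1 ≤ T) {l : ℕ} (h : l ≤ K) : (2 * T) ^ (l + 1) ≤ VV T K :=
  Nat.pow_le_pow_right (by omega) (by omega)

lemma Sm.le (hT : 1 ≤ T) (a : ℕ) (h : Sm T K a) : a ≤ VV T K := by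
  rcases h with rfl | ⟨l, hl, rfl⟩
  · exact Nat.zero_le _
  · exact pow_le_V hT hl

lemma A_zero : AA T K 0 := Or.inl (Or.inl rfl)
lemma A_pow {l : ℕ} (h : l ≤ K) : AA T K ((2 * T) ^ (l + 1)) := Or.inl (Or.inr ⟨l, h, rfl⟩)
lemma A_big {b : ℕ} (h1 : 3 * RR T K + 1 < b) (h2 : b ≤ dd T K) : AA T K b :=
  Or.inr ⟨by omega, h2, fun s _ _ h => by have := be_le (T := T) (K := K) s; omega⟩
lemma A_d : AA T K (dd T K) := A_big (by rw [dd]; omega) le_rfl
lemma A_le (hT : 1 ≤ T) (a : ℕ) (h : AA T K a) : a ≤ dd T K := by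
  rcases h with h | h
  · have := h.le hT
    have := V_le (K := K) hT
    have := W_le (K := K) hT
    rw [dd]; omega
  · exact h.2.1

lemma unit_big : ∀ (t b : ℕ), 3 * RR T K + 1 < b → b ≤ dd T K * (t + 1) → SumS (AA T K) (t + 1) b
  | 0, b, h1, h2 => SumS.one.2 (A_big h1 (by simpa using h2))
  | t + 1, b, h1, h2 => by
    have hd : dd T K = 6 * RR T K + 3 := rfl
    have h3 : dd T K ≤ dd T K * (t + 1) := Nat.le_mul_of_pos_right _ (by omega)
    rw [Nat.mul_succ] at h2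
    by_cases h4 : b ≤ dd T K * (t + 1)
    · exact ⟨0, A_zero, b, unit_big t b h1 h4, by simp⟩
    by_cases h5 : dd T K + 3 * RR T K + 1 < b
    · exact ⟨_, A_d, b - dd T K, unit_big t _ (by omega) (by omega), by omega⟩
    · exact ⟨3 * RR T K + 2, A_big (by omega) (by omega), b - (3 * RR T K + 2),
        unit_big t _ (by omega) (by omega), by omega⟩

lemma sum_small : ∀ {t a : ℕ}, SumS (AA T K) t a → a ≤ 2 * RR T K + 1 → SumS (Sm T K) t a
  | 0, _, h, _ => h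
  | _ + 1, _, ⟨a, ha, r, hr, e⟩, h => by
    rcases ha with ha | ha
    · exact ⟨a, ha, r, sum_small hr (by omega), e⟩
    · have := ha.1; omega

lemma small_even : ∀ {t a : ℕ}, SumS (Sm T K) t a → 2 ∣ a
  | 0, _, h => by
    obtain rfl : _ = 0 := h
    simp
  | _ + 1, _, ⟨a, ha, r, hr, e⟩ => by
    rw [e]
    refine dvd_add ?_ (small_even hr)
    rcases ha with rfl | ⟨l, -, rfl⟩
    · simp
    · exact dvd_pow (dvd_mul_right _ _) (by omega)

lemma not_unit_T (t : ℕ) : ¬ SumS (AA T K) t (be T K T) := fun h => by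
  rw [be_T] at h
  have := small_even (sum_small h le_rfl)
  omega

lemma sum_split : ∀ {t b : ℕ}, SumS (AA T K) (t + 1) b → b ≤ 3 * RR T K + 1 →
    SumS (Sm T K) (t + 1) b ∨ ∃ a, Lg T K a ∧ ∃ r, SumS (Sm T K) t r ∧ b = a + r
  | t, _, ⟨a, Or.inr ha, r, hr, e⟩, h => by
    have := ha.1
    exact Or.inr ⟨a, ha, r, sum_small hr (by omega), e⟩
  | 0, _, ⟨a, Or.inl ha, r, hr, e⟩, _ => Or.inl ⟨a, ha, r, hr, e⟩
  | t + 1, _, ⟨a, Or.inl ha, r, hr, e⟩, h => by
    rcases sum_split hr (by omega) with h1 | ⟨a', h1, r', h2, e'⟩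
    · exact Or.inl ⟨a, ha, r, h1, e⟩
    · exact Or.inr ⟨a', h1, a + r', ⟨a, ha, r', h2, rfl⟩, by omega⟩

lemma not_unit_lt {t : ℕ} (h : t + 1 < T) : ¬ SumS (AA T K) (t + 1) (be T K (t + 1)) := fun hs => by
  have hT : 1 ≤ T := by omega
  have h1 := mul_V (K := K) h.le
  have h2 := W_le (K := K) hT
  have h3 := be_ge (T := T) (K := K) (t + 1)
  have h4 := V_pos (K := K) hT
  rcases sum_split hs (be_le _) with h5 | ⟨a, ha, r, hr, e⟩
  · have := h5.le (Sm.le hT)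
    rw [mul_comm] at this
    omega
  · have h6 := hr.le (Sm.le hT)
    have h7 := ha.2.2 (t + 1) (by omega) h
    rw [mul_comm] at h6
    rw [Nat.succ_mul] at h7
    omega

lemma unit_window {s b : ℕ} (hs : s < T) (h1 : be T K s < b + s * VV T K) (h2 : b ≤ be T K s) :
    SumS (AA T K) (s + 1) b := by
  have hT : 1 ≤ T := by omega
  have h3 := mul_V (K := K) hs.le
  have h4 := be_gap (K := K) (Nat.lt_add_one s) hs
  have h5 := be_ge (T := T) (K := K) (s + 1)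
  have h6 := be_le (T := T) (K := K) s
  have h7 := (V_pos (K := K) hT).trans_le (V_le hT)
  refine ⟨b - s * VV T K, Or.inr ⟨by omega, by rw [dd]; omega, fun s' h8 h9 h => ?_⟩, _,
    SumS.mul (A_pow le_rfl) s, by rw [← VV]; omega⟩
  have h10 := mul_V (K := K) h9.le
  rcases lt_trichotomy s' s with h11 | rfl | h11
  · have := be_gap (K := K) h11 hs.le
    omega
  · omega
  · have := be_gap (K := K) h11 h9.le
    omega

lemma digit (hT : 1 ≤ T) (i : ℕ) : ∀ {t a : ℕ}, SumS (Sm T K) t a →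
    ∃ low q, a = low + (2 * T) ^ (i + 2) * q ∧ low ≤ t * (2 * T) ^ (i + 1)
  | 0, _, h => ⟨0, 0, by simpa [SumS] using h, by simp⟩
  | t + 1, _, ⟨a, ha, r, hr, e⟩ => by
    obtain ⟨low, q, e', hl⟩ := digit hT i hr
    rw [add_one_mul t]
    rcases ha with rfl | ⟨l, -, rfl⟩
    · exact ⟨low, q, by omega, by omega⟩
    by_cases h : l ≤ i
    · have : (2 * T) ^ (l + 1) ≤ (2 * T) ^ (i + 1) := Nat.pow_le_pow_right (by omega) (by omega)
      exact ⟨low + (2 * T) ^ (l + 1), q, by omega, by omega⟩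
    · obtain ⟨n, rfl⟩ : ∃ n, l = i + 1 + n := ⟨l - (i + 1), by omega⟩
      exact ⟨low, q + (2 * T) ^ n, by rw [e, e']; ring, by omega⟩

lemma digit_ne {t s i i' a a' : ℕ} (hts : t < s) (hs : s < T) (hi : i < i')
    (ha : SumS (Sm T K) t a) (ha' : SumS (Sm T K) t a') :
    a + s * (2 * T) ^ (i' + 1) ≠ a' + s * (2 * T) ^ (i + 1) := by
  intro h
  have hT : 1 ≤ T := by omega
  obtain ⟨low, q, e, hl⟩ := digit hT i ha
  obtain ⟨low', q', e', hl'⟩ := digit hT i ha'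
  obtain ⟨n, rfl⟩ : ∃ n, i' = i + 1 + n := ⟨i' - (i + 1), by omega⟩
  have hM : 0 < (2 * T) ^ (i + 1) := pow_pos (by omega) _
  have h1 : low + (2 * T) ^ (i + 2) * (q + s * (2 * T) ^ n) =
      (low' + s * (2 * T) ^ (i + 1)) + (2 * T) ^ (i + 2) * q' := by
    rw [e, e'] at h
    linear_combination h
  have h2 : (2 * T) ^ (i + 2) = T * (2 * T) ^ (i + 1) + T * (2 * T) ^ (i + 1) := by ring
  have h3 : t * (2 * T) ^ (i + 1) < s * (2 * T) ^ (i + 1) := Nat.mul_lt_mul_of_pos_right hts hM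
  have h4 : s * (2 * T) ^ (i + 1) < T * (2 * T) ^ (i + 1) := Nat.mul_lt_mul_of_pos_right hs hM
  have h5 := congrArg (· % (2 * T) ^ (i + 2)) h1
  simp only [Nat.add_mul_mod_self_left] at h5
  rw [Nat.mod_eq_of_lt (by omega), Nat.mod_eq_of_lt (by omega)] at h5
  omega

lemma cc_add {s i : ℕ} (h1 : 1 ≤ s) (hs : s ≤ T) (hi : i ≤ K) :
    cc T K s i + (s - 1) * (2 * T) ^ (i + 1) = be T K s ∧
      (s - 1) * (2 * T) ^ (i + 1) ≤ WW T K := by
  have hT : 1 ≤ T := by omega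
  have h2 : (s - 1) * (2 * T) ^ (i + 1) ≤ WW T K :=
    (Nat.mul_le_mul_left _ (pow_le_V hT hi)).trans (mul_V (by omega))
  have := W_le (K := K) hT
  have := be_ge (T := T) (K := K) s
  rw [cc]
  omega

section main
variable {J : Type} [Fintype J] {lev idx : J → ℕ} {φ : ℕ → ℕ} (hT : 1 ≤ T)
  (h1 : ∀ j, 1 ≤ lev j) (h2 : ∀ j, lev j ≤ T) (h3 : ∀ j, idx j < φ (lev j))
  (h4 : ∀ j, idx j ≤ K) (h5 : ∀ j j', lev j = lev j' → idx j = idx j' → j = j')
  (h6 : ∀ s i, 1 ≤ s → s ≤ T → i < φ s → ∃ j, lev j = s ∧ idx j = i)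
  (h7 : ∀ t, 1 ≤ t → 1 ≤ φ t) (h8 : ∀ t, T ≤ t → φ t = φ T)

omit [Fintype J] in
include hT h1 h2 h4 in
lemma absorb (j j' : J) :
    SumS (AA T K) 2 (cc T K (lev j) (idx j) + cc T K (lev j') (idx j')) := by
  have a1 := cc_add (h1 j) (h2 j) (h4 j)
  have a2 := cc_add (h1 j') (h2 j') (h4 j')
  have := be_ge (T := T) (K := K) (lev j)
  have := be_ge (T := T) (K := K) (lev j')
  have := be_le (T := T) (K := K) (lev j)
  have := be_le (T := T) (K := K) (lev j')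
  have := W_le (K := K) hT
  exact unit_big 1 _ (by omega) (by rw [dd]; omega)

include hT h1 h2 h3 h4 h5 h7 h8 in
lemma upper (t b : ℕ) (hb : b ≤ dd T K * (t + 1)) (hU : ¬ SumS (AA T K) (t + 1) b) :
    (FJ (AA T K) (fun j => cc T K (lev j) (idx j)) t b).card ≤ φ (t + 1) := by
  have hb1 : b ≤ 3 * RR T K + 1 := by
    by_contra h
    exact hU (unit_big t b (by omega) hb)
  have hW := W_le (K := K) hT
  have hV := (V_pos (K := K) hT).trans_le (V_le hT)
  have hF : ∀ j ∈ FJ (AA T K) (fun j => cc T K (lev j) (idx j)) t b,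
      ∃ a, SumS (Sm T K) t a ∧ b = cc T K (lev j) (idx j) + a := by
    intro j hj
    obtain ⟨a, ha, e⟩ := (mem_FJ _ _).1 hj
    have a1 := cc_add (h1 j) (h2 j) (h4 j)
    have := be_ge (T := T) (K := K) (lev j)
    exact ⟨a, sum_small ha (by omega), e⟩
  obtain ⟨s, hs, hs', hlev⟩ : ∃ s, s ≤ T ∧ (s ≤ t + 1 → φ s = φ (t + 1)) ∧
      ∀ j ∈ FJ (AA T K) (fun j => cc T K (lev j) (idx j)) t b, lev j = s := by
    by_cases hb2 : b ≤ 2 * RR T K + 1
    · refine ⟨T, le_rfl, fun h => (h8 _ h).symm, fun j hj => ?_⟩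
      obtain ⟨a, -, e⟩ := hF j hj
      by_contra hne
      have a1 := cc_add (h1 j) (h2 j) (h4 j)
      have := be_gap (K := K) (lt_of_le_of_ne (h2 j) hne) le_rfl
      rw [be_T] at this
      omega
    · have hA : ¬ Lg T K b := fun h =>
        hU ((SumS.one.2 (Or.inr h : AA T K b)).mono A_zero (by omega))
      obtain ⟨s, -, hs2, hs3, hs4⟩ : ∃ s, 1 ≤ s ∧ s < T ∧ be T K s < b + s * VV T K ∧
          b ≤ be T K s := by
        by_contra h
        exact hA ⟨by omega, by rw [dd]; omega, fun s a1 a2 a3 => h ⟨s, a1, a2, a3⟩⟩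
      have hts : t + 1 ≤ s := by
        by_contra h
        exact hU ((unit_window hs2 hs3 hs4).mono A_zero (by omega))
      refine ⟨s, hs2.le, fun h => by rw [le_antisymm h hts], fun j hj => ?_⟩
      obtain ⟨a, ha, e⟩ := hF j hj
      have a1 := cc_add (h1 j) (h2 j) (h4 j)
      have a2 := ha.le (Sm.le hT)
      have a3 := mul_V (K := K) hs2.le
      have a4 := mul_V (T := T) (K := K) (s := t) (by omega)
      rw [mul_comm] at a2
      rcases lt_trichotomy (lev j) s with h | h | h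
      · have := be_gap (K := K) h hs2.le
        omega
      · exact h
      · have := be_gap (K := K) h (h2 j)
        omega
  by_cases hst : s ≤ t + 1
  · rw [← hs' hst, ← Finset.card_range (φ s)]
    refine Finset.card_le_card_of_injOn idx (fun j hj => ?_) (fun j hj j' hj' e => ?_)
    · have := h3 j
      rw [hlev j hj] at this
      simpa using this
    · exact h5 j j' ((hlev j hj).trans (hlev j' hj').symm) e
  · refine le_trans (Finset.card_le_one.2 fun j hj j' hj' => ?_) (h7 _ (by omega))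
    obtain ⟨a, ha, e⟩ := hF j hj
    obtain ⟨a', ha', e'⟩ := hF j' hj'
    have a1 := (cc_add (h1 j) (h2 j) (h4 j)).1
    have a2 := (cc_add (h1 j') (h2 j') (h4 j')).1
    rw [hlev j hj] at a1 e
    rw [hlev j' hj'] at a2 e'
    refine h5 j j' ((hlev j hj).trans (hlev j' hj').symm) ?_
    rcases lt_trichotomy (idx j) (idx j') with h | h | h
    · exact absurd (by omega) (digit_ne (s := s - 1) (by omega) (by omega) h ha ha')
    · exact h
    · exact absurd (by omega) (digit_ne (s := s - 1) (by omega) (by omega) h ha' ha)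

include hT h1 h2 h4 h6 h8 in
lemma lower (t : ℕ) : ∃ b ≤ dd T K * (t + 1), ¬ SumS (AA T K) (t + 1) b ∧
    φ (t + 1) ≤ (FJ (AA T K) (fun j => cc T K (lev j) (idx j)) t b).card := by
  classical
  obtain ⟨s, s1, s2, s3, s4, s5⟩ : ∃ s, 1 ≤ s ∧ s ≤ T ∧ s ≤ t + 1 ∧ φ (t + 1) = φ s ∧
      ¬ SumS (AA T K) (t + 1) (be T K s) := by
    by_cases h : t + 1 < T
    · exact ⟨t + 1, by omega, h.le, le_rfl, rfl, not_unit_lt h⟩
    · exact ⟨T, hT, le_rfl, by omega, h8 _ (by omega), not_unit_T _⟩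
  refine ⟨be T K s, ?_, s5, ?_⟩
  · have := be_le (T := T) (K := K) s
    have h3 : dd T K ≤ dd T K * (t + 1) := Nat.le_mul_of_pos_right _ (by omega)
    have : dd T K = 6 * RR T K + 3 := rfl
    omega
  · rw [s4, ← Finset.card_range (φ s)]
    refine le_trans (Finset.card_le_card fun i hi => ?_) (Finset.card_image_le (f := idx))
    obtain ⟨j, rfl, rfl⟩ := h6 s i s1 s2 (by simpa using hi)
    refine Finset.mem_image.2 ⟨j, (mem_FJ _ _).2 ⟨_, ?_, (cc_add (h1 j) (h2 j) (h4 j)).1.symm⟩, rfl⟩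
    exact (SumS.mul (A_pow (h4 j)) _).mono A_zero (by omega)

end main

theorem main (φ : ℕ → ℕ) (T : ℕ) (hT : 1 ≤ T) (h7 : ∀ t, 1 ≤ t → 1 ≤ φ t)
    (h8 : ∀ t, T ≤ t → φ t = φ T) : ∃ (n : ℕ) (s : Set (Fin n →₀ ℕ)), ∀ t m : ℕ,
      PdOne.PD (MvPolynomial (Fin n) ℚ) ↥(MI ℚ s ^ (t + 1)) (m + 1) ↔ φ (t + 1) + 1 ≤ m := by
  classical
  set K := (Finset.range (T + 1)).sup φ
  let P : Finset (ℕ × ℕ) := (Finset.Icc 1 T ×ˢ Finset.range K).filter fun p => p.2 < φ p.1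
  have hP : ∀ p : ℕ × ℕ, p ∈ P ↔ ((1 ≤ p.1 ∧ p.1 ≤ T) ∧ p.2 < K) ∧ p.2 < φ p.1 := by
    intro p
    simp [P]
  let e := Fintype.equivFin (Option (Option P))
  let z : P ↪ Fin _ := ⟨fun j => e (some (some j)), fun j j' h => by simpa using h⟩
  have h1 : ∀ j : P, 1 ≤ j.1.1 := fun j => ((hP _).1 j.2).1.1.1
  have h2 : ∀ j : P, j.1.1 ≤ T := fun j => ((hP _).1 j.2).1.1.2
  have h3 : ∀ j : P, j.1.2 < φ j.1.1 := fun j => ((hP _).1 j.2).2
  have h4 : ∀ j : P, j.1.2 ≤ K := fun j => ((hP _).1 j.2).1.2.le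
  have h5 : ∀ j j' : P, j.1.1 = j'.1.1 → j.1.2 = j'.1.2 → j = j' :=
    fun j j' a b => Subtype.ext (Prod.ext a b)
  have h6 : ∀ s i, 1 ≤ s → s ≤ T → i < φ s → ∃ j : P, j.1.1 = s ∧ j.1.2 = i := fun s i a b c =>
    ⟨⟨(s, i), (hP _).2 ⟨⟨⟨a, b⟩, c.trans_le (Finset.le_sup (by simp; omega))⟩, c⟩⟩, rfl, rfl⟩
  refine ⟨_, EP (e none) (e (some none)) z (AA T K) (dd T K) (fun j => cc T K j.1.1 j.1.2) 0,
    fun t m => ?_⟩
  refine pd_pow (by simp) (fun j h => by simpa using e.injective h)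
    (fun j h => by simpa using e.injective h) A_zero A_d (A_le hT)
    (fun j => ?_) (absorb hT h1 h2 h4) t _ (upper hT h1 h2 h3 h4 h5 h7 h8 t)
    (lower hT h1 h2 h4 h6 h8 t) m
  have := (cc_add (h1 j) (h2 j) (h4 j)).1
  have := be_le (T := T) (K := K) j.1.1
  rw [dd]; omega

end Pool.Agent.PdFun
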